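import Pool.Agent.W44.PD.Growth

/-!
Numbers with digits `0, 1` in base `b`: decomposition and multiples.
-/

set_option autoImplicit false

open Finset
open scoped Pointwise

namespace Pool.Agent.W44.PD

section group
variable {G : Type*} [AddCommGroup G] [DecidableEq G]

theorem mem_sum_range (S : ℕ → Finset G) (n : ℕ) (g : G) (h : g ∈ ∑ j ∈ range n, S j) :
    ∃ f : ℕ → G, (∀ j, j < n → f j ∈ S j) ∧ ∑ j ∈ range n, f j = g := by
  induction n generalizing g with
  | zero => 
    refine ⟨fun _ => 0, by simp, ?_⟩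
    have h0 : g = 0 := by simpa using h
    simp [h0]
  | succ n ih =>
    rw [Finset.sum_range_succ, Finset.mem_add] at h
    obtain ⟨x, hx, y, hy, rfl⟩ := h
    obtain ⟨f, hf, rfl⟩ := ih x hx
    refine ⟨fun j => if j = n then y else f j, ?_, ?_⟩
    · intro j hj
      by_cases hjn : j = n
      · simpa [hjn] using hy
      · simpa [hjn] using hf j (by omega)
    · rw [Finset.sum_range_succ]
      simp only [if_true]
      congr 1
      apply Finset.sum_congr rfl
      intro j hj
      have : j ≠ n := by have := Finset.mem_range.1 hj; omega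
      simp [this]

theorem sum_mem_nsmul (S : Finset G) (n : ℕ) (f : ℕ → G) (hf : ∀ i, i < n → f i ∈ S) :
    ∑ i ∈ range n, f i ∈ n • S := by
  induction n with
  | zero => simp
  | succ n ih =>
    rw [Finset.sum_range_succ, succ_nsmul]
    exact Finset.add_mem_add (ih (fun i hi => hf i (by omega))) (hf n (by omega))

end group

theorem sum_digits (b R N : ℕ) : ∑ d ∈ range R, b ^ d * (N / b ^ d % b) = N % b ^ R := by
  induction R with
  | zero => simp [Nat.mod_one]
  | succ R ih =>
    rw [Finset.sum_range_succ, ih, Nat.mod_pow_succ]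

theorem digits_decomp (b R N : ℕ) (hb : 2 ≤ b) (hN : N < b ^ R) :
    ∃ f : ℕ → Finset ℕ, (∀ i, f i ⊆ range R) ∧
      ∑ i ∈ range (b - 1), ∑ d ∈ f i, b ^ d = N := by
  refine ⟨fun i => (range R).filter (fun d => i < N / b ^ d % b), fun i => Finset.filter_subset _ _,
    ?_⟩
  have h1 : ∑ i ∈ range (b - 1), ∑ d ∈ (range R).filter (fun d => i < N / b ^ d % b), b ^ d =
      ∑ d ∈ range R, b ^ d * (N / b ^ d % b) := by
    simp_rw [Finset.sum_filter]
    rw [Finset.sum_comm]
    apply Finset.sum_congr rfl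
    intro d _
    rw [← Finset.sum_filter, Finset.sum_const, smul_eq_mul, mul_comm]
    congr 1
    have : (range (b - 1)).filter (fun i => i < N / b ^ d % b) = range (N / b ^ d % b) := by
      ext i
      simp only [Finset.mem_filter, Finset.mem_range]
      have := Nat.mod_lt (N / b ^ d) (show 0 < b by omega)
      omega
    rw [this, Finset.card_range]
  rw [h1, sum_digits, Nat.mod_eq_of_lt hN]

theorem assemble0 (b J R : ℕ) (P : ℕ → Finset ℕ) (hP : ∀ j, j < J → P j ⊆ range R) :
    ∃ U : Finset ℕ, U ⊆ range (J * R) ∧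
      ∑ d ∈ U, b ^ d = ∑ j ∈ range J, b ^ (j * R) * ∑ d ∈ P j, b ^ d := by
  induction J with
  | zero => exact ⟨∅, by simp, by simp⟩
  | succ J ih =>
    obtain ⟨U, hU, hsum⟩ := ih (fun j hj => hP j (by omega))
    have hPJ := hP J (by omega)
    refine ⟨U ∪ (P J).map (addRightEmbedding (J * R)), ?_, ?_⟩
    · intro d hd
      rw [Finset.mem_union, Finset.mem_map] at hd
      rw [Finset.mem_range]
      rcases hd with hd | ⟨e, he, rfl⟩
      · have := Finset.mem_range.1 (hU hd)
        nlinarith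
      · have := Finset.mem_range.1 (hPJ he)
        simp only [addRightEmbedding_apply]
        nlinarith
    · rw [Finset.sum_union, hsum, Finset.sum_range_succ, Finset.sum_map]
      · congr 1
        rw [Finset.mul_sum]
        apply Finset.sum_congr rfl
        intro e _
        simp only [addRightEmbedding_apply]
        rw [pow_add, mul_comm]
      · rw [Finset.disjoint_left]
        intro d hd hd2
        rw [Finset.mem_map] at hd2
        obtain ⟨e, he, rfl⟩ := hd2
        have := Finset.mem_range.1 (hU hd)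
        simp only [addRightEmbedding_apply] at this
        omega

theorem assemble (b J R : ℕ) (P : ℕ → Finset ℕ) (hP : ∀ j, j < J → P j ⊆ range R) :
    ∃ S : Finset ℕ, S.Nonempty ∧ S ⊆ range (J * R + 1) ∧
      ∑ d ∈ S, b ^ d = b ^ (J * R) + ∑ j ∈ range J, b ^ (j * R) * ∑ d ∈ P j, b ^ d := by
  obtain ⟨U, hU, hsum⟩ := assemble0 b J R P hP
  refine ⟨insert (J * R) U, Finset.insert_nonempty _ _, ?_, ?_⟩
  · intro d hd
    rw [Finset.mem_insert] at hd
    rcases hd with rfl | hd
    · simp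
    · have := Finset.mem_range.1 (hU hd)
      exact Finset.mem_range.2 (by omega)
  · rw [Finset.sum_insert, hsum]
    intro h
    have := Finset.mem_range.1 (hU h)
    omega

theorem rational_coprime (b ρ K q : ℕ) (hb : 2 ≤ b) (hq : 1 ≤ q) (hqb : q ≤ b ^ ρ)
    (hcop : Nat.Coprime b q)
    (hK : (1 - 1 / ((b - 1 : ℕ) : ℝ)) ^ K * (ρ * Real.log b) < Real.log 2) :
    ∃ S : Finset ℕ, S.Nonempty ∧ S ⊆ range (2 * K * ρ + 1) ∧ q ∣ ∑ d ∈ S, b ^ d := by
  have : NeZero q := ⟨by omega⟩
  have hu : IsUnit (b : ZMod q) := (ZMod.isUnit_iff_coprime b q).2 hcop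
  let S : ℕ → Finset (ZMod q) := fun j =>
    ((range ρ).powerset).image (fun P => ((b ^ (j * ρ) * ∑ d ∈ P, b ^ d : ℕ) : ZMod q))
  have hS0 : ∀ j, (S j).Nonempty := fun j =>
    Finset.Nonempty.image ⟨∅, by simp⟩ _
  have hS : ∀ j, (b - 1) • S j = Finset.univ := by
    intro j
    rw [Finset.eq_univ_iff_forall]
    intro g
    have huj : IsUnit ((b : ZMod q) ^ (j * ρ)) := hu.pow _
    obtain ⟨v, hv⟩ := huj
    have hlt : ((↑v⁻¹ : ZMod q) * g).val < b ^ ρ := (ZMod.val_lt _).trans_le hqb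
    obtain ⟨f, hf, hfs⟩ := digits_decomp b ρ _ hb hlt
    have : g = ∑ i ∈ range (b - 1), ((b ^ (j * ρ) * ∑ d ∈ f i, b ^ d : ℕ) : ZMod q) := by
      rw [← Nat.cast_sum, ← Finset.mul_sum, hfs]
      push_cast
      rw [ZMod.natCast_zmod_val, ← hv, ← mul_assoc]
      simp
    rw [this]
    exact sum_mem_nsmul _ _ _ (fun i _ => Finset.mem_image.2
      ⟨f i, Finset.mem_powerset.2 (hf i), rfl⟩)
  have hm : 1 ≤ b - 1 := by omega
  have hK' : (1 - 1 / ((b - 1 : ℕ) : ℝ)) ^ K * Real.log (Fintype.card (ZMod q)) < Real.log 2 := by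
    refine lt_of_le_of_lt ?_ hK
    apply mul_le_mul_of_nonneg_left
    · rw [ZMod.card, ← Real.log_pow]
      apply Real.log_le_log (by exact_mod_cast hq)
      exact_mod_cast hqb
    · apply pow_nonneg
      have hm' : (1 : ℝ) ≤ ((b - 1 : ℕ) : ℝ) := by exact_mod_cast hm
      have : 1 / ((b - 1 : ℕ) : ℝ) ≤ 1 := by rw [div_le_one (by linarith)]; exact hm'
      linarith
  have hmem := sum_eq_univ (b - 1) hm S hS0 hS K hK' (-((b ^ (2 * K * ρ) : ℕ) : ZMod q))
  obtain ⟨f, hf, hfs⟩ := mem_sum_range _ _ _ hmem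
  have hex : ∀ j, ∃ P : Finset ℕ, j < 2 * K →
      P ⊆ range ρ ∧ ((b ^ (j * ρ) * ∑ d ∈ P, b ^ d : ℕ) : ZMod q) = f j := by
    intro j
    by_cases hj : j < 2 * K
    · obtain ⟨P, hP, hP2⟩ := Finset.mem_image.1 (hf j hj)
      exact ⟨P, fun _ => ⟨Finset.mem_powerset.1 hP, hP2⟩⟩
    · exact ⟨∅, fun h => absurd h hj⟩
  choose P hP using hex
  obtain ⟨U, hU0, hU, hUs⟩ := assemble b (2 * K) ρ P (fun j hj => (hP j hj).1)
  refine ⟨U, hU0, hU, ?_⟩
  rw [← ZMod.natCast_eq_zero_iff, hUs, Nat.cast_add, Nat.cast_sum]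
  have : ∑ j ∈ range (2 * K), ((b ^ (j * ρ) * ∑ d ∈ P j, b ^ d : ℕ) : ZMod q) =
      ∑ j ∈ range (2 * K), f j :=
    Finset.sum_congr rfl (fun j hj => (hP j (Finset.mem_range.1 hj)).2)
  rw [this, hfs]
  simp

theorem rational (b ρ K : ℕ) (hb : 2 ≤ b)
    (hK : (1 - 1 / ((b - 1 : ℕ) : ℝ)) ^ K * (ρ * Real.log b) < Real.log 2) :
    ∀ q : ℕ, 1 ≤ q → q ≤ b ^ ρ →
    ∃ S : Finset ℕ, S.Nonempty ∧ S ⊆ range (2 * K * ρ + 1 + Nat.log 2 q) ∧
      q ∣ ∑ d ∈ S, b ^ d := by
  intro q
  induction q using Nat.strong_induction_on with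
  | _ q ih =>
    intro hq hqb
    by_cases hcop : Nat.Coprime b q
    · obtain ⟨S, h1, h2, h3⟩ := rational_coprime b ρ K q hb hq hqb hcop hK
      refine ⟨S, h1, h2.trans ?_, h3⟩
      intro x hx
      rw [Finset.mem_range] at hx ⊢
      omega
    · set g := Nat.gcd b q with hg
      have hg0 : 0 < g := Nat.gcd_pos_of_pos_right _ hq
      have hg1 : g ≠ 1 := hcop
      have hg2 : 2 ≤ g := by omega
      obtain ⟨q', hq'⟩ := Nat.gcd_dvd_right b q
      rw [← hg] at hq'
      have hq'0 : 1 ≤ q' := by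
        rcases Nat.eq_zero_or_pos q' with h | h
        · rw [h] at hq'; omega
        · exact h
      have hle : 2 * q' ≤ q := by rw [hq']; exact Nat.mul_le_mul_right _ hg2
      obtain ⟨S, h1, h2, h3⟩ := ih q' (by omega) hq'0 (by omega)
      refine ⟨S.map (addRightEmbedding 1), h1.map, ?_, ?_⟩
      · intro x hx
        obtain ⟨y, hy, rfl⟩ := Finset.mem_map.1 hx
        have hy2 := Finset.mem_range.1 (h2 hy)
        rw [Finset.mem_range]
        simp only [addRightEmbedding_apply]
        have hlog : Nat.log 2 q' + 1 ≤ Nat.log 2 q := by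
          have : Nat.log 2 (2 * q') = Nat.log 2 q' + 1 := by
            rw [mul_comm]; exact Nat.log_mul_base (by norm_num) (by omega)
          rw [← this]
          exact Nat.log_mono_right hle
        omega
      · rw [Finset.sum_map]
        simp only [addRightEmbedding_apply, pow_succ]
        rw [← Finset.sum_mul, hq', mul_comm g q']
        exact Nat.mul_dvd_mul h3 (Nat.gcd_dvd_left b q)

end Pool.Agent.W44.PD
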