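import Pool.Agent.W44.PD.Main

/-!
Choice of the parameters.
-/

set_option autoImplicit false

open Finset Filter

namespace Pool.Agent.W44.PD

theorem K_cond (b ρ : ℕ) (hb : 2 ≤ b) (hρ : 1 ≤ ρ) :
    (1 - 1 / ((b - 1 : ℕ) : ℝ)) ^ ((b - 1) * (⌈Real.log ρ⌉₊ + b)) * (ρ * Real.log b) <
      Real.log 2 := by
  have hm : (1 : ℝ) ≤ ((b - 1 : ℕ) : ℝ) := by exact_mod_cast (by omega : 1 ≤ b - 1)
  have hm0 : (0 : ℝ) < ((b - 1 : ℕ) : ℝ) := by linarith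
  have hb2 : (2 : ℝ) ≤ b := by exact_mod_cast hb
  have hρ1 : (1 : ℝ) ≤ ρ := by exact_mod_cast hρ
  have h0 : (0 : ℝ) ≤ 1 - 1 / ((b - 1 : ℕ) : ℝ) := by
    have : 1 / ((b - 1 : ℕ) : ℝ) ≤ 1 := by rw [div_le_one hm0]; exact hm
    linarith
  have h1 : (1 - 1 / ((b - 1 : ℕ) : ℝ)) ≤ Real.exp (-(1 / ((b - 1 : ℕ) : ℝ))) := by
    have := Real.add_one_le_exp (-(1 / ((b - 1 : ℕ) : ℝ)))
    linarith
  have h2 : (1 - 1 / ((b - 1 : ℕ) : ℝ)) ^ (b - 1) ≤ Real.exp (-1) := by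
    calc (1 - 1 / ((b - 1 : ℕ) : ℝ)) ^ (b - 1) ≤ (Real.exp (-(1 / ((b - 1 : ℕ) : ℝ)))) ^ (b - 1) :=
          pow_le_pow_left₀ h0 h1 _
      _ = Real.exp (-1) := by
          rw [← Real.exp_nat_mul]
          congr 1
          field_simp
  have h3 : (1 - 1 / ((b - 1 : ℕ) : ℝ)) ^ ((b - 1) * (⌈Real.log ρ⌉₊ + b)) ≤
      Real.exp (-(Real.log ρ + b)) := by
    rw [pow_mul]
    calc ((1 - 1 / ((b - 1 : ℕ) : ℝ)) ^ (b - 1)) ^ (⌈Real.log ρ⌉₊ + b) ≤
        (Real.exp (-1)) ^ (⌈Real.log ρ⌉₊ + b) := pow_le_pow_left₀ (pow_nonneg h0 _) h2 _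
      _ = Real.exp (-((⌈Real.log ρ⌉₊ : ℝ) + b)) := by
          rw [← Real.exp_nat_mul]
          congr 1
          push_cast
          ring
      _ ≤ Real.exp (-(Real.log ρ + b)) := by
          apply Real.exp_le_exp.2
          have := Nat.le_ceil (Real.log ρ)
          linarith
  have hlb : 0 < Real.log b := Real.log_pos (by linarith)
  have hlb2 : Real.log b ≤ b := by
    have := Real.log_le_sub_one_of_pos (show (0 : ℝ) < b by linarith)
    linarith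
  have hexp : Real.exp (-(Real.log ρ + b)) * (ρ * Real.log b) = Real.exp (-b) * Real.log b := by
    rw [neg_add, Real.exp_add, Real.exp_neg (Real.log ρ), Real.exp_log (by linarith)]
    field_simp
  have hq := Real.quadratic_le_exp_of_nonneg (show (0 : ℝ) ≤ b by linarith)
  have hfin : Real.exp (-b) * Real.log b < 1 / 2 := by
    rw [Real.exp_neg]
    have he : (0 : ℝ) < Real.exp b := Real.exp_pos _
    rw [inv_mul_lt_iff₀ he]
    nlinarith [sq_nonneg ((b : ℝ) - 1)]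
  calc _ ≤ Real.exp (-(Real.log ρ + b)) * (ρ * Real.log b) := by gcongr
    _ = Real.exp (-b) * Real.log b := hexp
    _ < 1 / 2 := hfin
    _ < Real.log 2 := by have := Real.log_two_gt_d9; linarith

theorem bounds (b ρ : ℕ) (hb : 2 ≤ b) (hρ : 1 ≤ ρ) (γ : ℝ) :
    ∃ S : Finset ℕ, S.Nonempty ∧
      Real.log ((∑ d ∈ S, b ^ d : ℕ) : ℝ) ≤ 9 * b ^ 5 * (ρ * (1 + Real.log ρ) ^ 2) ∧
      |γ * ((∑ d ∈ S, b ^ d : ℕ) : ℝ) - round (γ * ((∑ d ∈ S, b ^ d : ℕ) : ℝ))| ≤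
        (2 * b ^ 2 * (b + 3) + 2) * (1 + Real.log ρ) / (b : ℝ) ^ ρ := by
  set K : ℕ := (b - 1) * (⌈Real.log ρ⌉₊ + b) with hKdef
  obtain ⟨S, hS0, hS1, hS2⟩ := core b ρ K (2 * K * ρ + 1 + b * ρ + ρ) hb hρ γ
    (K_cond b ρ hb hρ) rfl
  have hb2 : (2 : ℝ) ≤ b := by exact_mod_cast hb
  have hρ1 : (1 : ℝ) ≤ ρ := by exact_mod_cast hρ
  set ℓ : ℝ := 1 + Real.log ρ with hℓ
  have hlog0 : 0 ≤ Real.log ρ := Real.log_nonneg hρ1
  have hℓ1 : 1 ≤ ℓ := by linarith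
  have hceil : (⌈Real.log ρ⌉₊ : ℝ) ≤ ℓ := by
    have := Nat.ceil_lt_add_one hlog0
    linarith
  have hKle : (K : ℝ) ≤ b ^ 2 * ℓ := by
    rw [hKdef, Nat.cast_mul, Nat.cast_add, Nat.cast_sub (by omega)]
    push_cast
    have h1 : (⌈Real.log ρ⌉₊ : ℝ) + b ≤ (1 + b) * ℓ := by nlinarith
    calc ((b : ℝ) - 1) * ((⌈Real.log ρ⌉₊ : ℝ) + b) ≤ (b - 1) * ((1 + b) * ℓ) := by
          gcongr; linarith
      _ ≤ b ^ 2 * ℓ := by nlinarith
  have hK0 : (0 : ℝ) ≤ K := Nat.cast_nonneg _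
  refine ⟨S, hS0, ?_, ?_⟩
  · have hlt : (∑ d ∈ S, b ^ d) < b ^ (2 * K * (2 * K * ρ + 1 + b * ρ + ρ) + 1) := by
      refine Nat.geomSum_lt hb ?_
      intro k hk
      exact Finset.mem_range.1 (hS1 hk)
    have hpos : 0 < ∑ d ∈ S, b ^ d := Finset.sum_pos (fun _ _ => by positivity) hS0
    have h1 : Real.log ((∑ d ∈ S, b ^ d : ℕ) : ℝ) ≤
        (2 * K * (2 * K * ρ + 1 + b * ρ + ρ) + 1 : ℕ) * Real.log b := by
      rw [← Real.log_pow]
      apply Real.log_le_log (by exact_mod_cast hpos)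
      exact_mod_cast hlt.le
    refine h1.trans ?_
    have hlb2 : Real.log b ≤ b := by
      have := Real.log_le_sub_one_of_pos (show (0 : ℝ) < b by linarith)
      linarith
    have hlb0 : 0 ≤ Real.log b := Real.log_nonneg (by linarith)
    have hR : ((2 * K * ρ + 1 + b * ρ + ρ : ℕ) : ℝ) ≤ 4 * b ^ 2 * (ρ * ℓ) := by
      push_cast
      have e1 : (K : ℝ) * ρ ≤ b ^ 2 * ℓ * ρ := by gcongr
      have e2 : (1 : ℝ) + b * ρ + ρ ≤ 2 * b ^ 2 * (ρ * ℓ) := by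
        have f1 : (1 : ℝ) + b * ρ + ρ ≤ (2 + b) * ρ := by linarith
        have f2 : (2 + b : ℝ) ≤ 2 * b ^ 2 := by nlinarith
        have f3 : (ρ : ℝ) ≤ ρ * ℓ := by nlinarith
        calc (1 : ℝ) + b * ρ + ρ ≤ (2 + b) * ρ := f1
          _ ≤ 2 * b ^ 2 * (ρ * ℓ) := by gcongr
      nlinarith
    have hL : ((2 * K * (2 * K * ρ + 1 + b * ρ + ρ) + 1 : ℕ) : ℝ) ≤ 9 * b ^ 4 * (ρ * ℓ ^ 2) := by
      rw [Nat.cast_add, Nat.cast_mul, Nat.cast_mul]
      have g1 : ((2 : ℕ) : ℝ) * K * ((2 * K * ρ + 1 + b * ρ + ρ : ℕ) : ℝ) ≤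
          2 * (b ^ 2 * ℓ) * (4 * b ^ 2 * (ρ * ℓ)) := by
        push_cast at hR ⊢
        gcongr
      have g2 : (1 : ℝ) ≤ b ^ 4 * (ρ * ℓ ^ 2) := by
        have : (1 : ℝ) ≤ b ^ 4 := one_le_pow₀ (by linarith)
        have h4 : (1 : ℝ) ≤ ℓ ^ 2 := one_le_pow₀ hℓ1
        have h5 : (1 : ℝ) ≤ ρ * ℓ ^ 2 := by nlinarith
        nlinarith
      calc ((2 : ℕ) : ℝ) * K * ((2 * K * ρ + 1 + b * ρ + ρ : ℕ) : ℝ) + ((1 : ℕ) : ℝ)
          ≤ 2 * (b ^ 2 * ℓ) * (4 * b ^ 2 * (ρ * ℓ)) + b ^ 4 * (ρ * ℓ ^ 2) := by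
            push_cast at g1 ⊢
            linarith
        _ = 9 * b ^ 4 * (ρ * ℓ ^ 2) := by ring
    calc ((2 * K * (2 * K * ρ + 1 + b * ρ + ρ) + 1 : ℕ) : ℝ) * Real.log b
        ≤ (9 * b ^ 4 * (ρ * ℓ ^ 2)) * b := by gcongr
      _ = 9 * b ^ 5 * (ρ * ℓ ^ 2) := by ring
  · refine hS2.trans ?_
    gcongr
    calc 2 * (K : ℝ) * (b + 3) + 2 ≤ 2 * (b ^ 2 * ℓ) * (b + 3) + 2 * ℓ := by
          have : (2 : ℝ) * K * (b + 3) ≤ 2 * (b ^ 2 * ℓ) * (b + 3) := by gcongr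
          linarith
      _ = (2 * b ^ 2 * (b + 3) + 2) * ℓ := by ring

theorem final (b : ℕ) (hb : 2 ≤ b) : ∃ N₀ : ℕ, ∀ N : ℕ, N₀ ≤ N → ∀ γ : ℝ,
    ∃ S : Finset ℕ, S.Nonempty ∧ (∑ d ∈ S, b ^ d) ≤ N ∧
      |γ * ((∑ d ∈ S, b ^ d : ℕ) : ℝ) - round (γ * ((∑ d ∈ S, b ^ d : ℕ) : ℝ))| ≤
        Real.exp (-(Real.log b / (72 * b ^ 5)) * (Real.log N / Real.log (Real.log N) ^ 2)) := by
  have hb2 : (2 : ℝ) ≤ b := by exact_mod_cast hb
  have hlb0 : 0 < Real.log b := Real.log_pos (by linarith)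
  set A : ℝ := 2 * b * (2 * b ^ 2 * (b + 3) + 2) with hA
  have hApos : 0 < A := by positivity
  set κ : ℝ := Real.log b / (36 * b ^ 5) with hκ
  have hκ0 : 0 < κ := by positivity
  -- conditions on `X = log N`
  have hlim2 := (Real.isLittleO_pow_log_id_atTop (n := 2)).def
    (show (0 : ℝ) < min (1 / (36 * (b : ℝ) ^ 5)) (κ / (4 * (|Real.log A| + 1))) by positivity)
  have hlim3 := (Real.isLittleO_pow_log_id_atTop (n := 3)).def (show (0 : ℝ) < κ / 4 by positivity)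
  have hev : ∀ᶠ X : ℝ in atTop, 1 ≤ Real.log X ∧ 0 < X ∧ 36 * b ^ 5 * Real.log X ^ 2 ≤ X ∧
      (2 / κ) * (|Real.log A| + Real.log X) * Real.log X ^ 2 ≤ X := by
    filter_upwards [hlim2, hlim3, eventually_ge_atTop (Real.exp 1)] with X h2 h3 h4
    have hX0 : 0 < X := (Real.exp_pos 1).trans_le h4
    have hY : 1 ≤ Real.log X := by
      rw [← Real.log_exp 1]; exact Real.log_le_log (Real.exp_pos 1) h4
    have hY0 : 0 ≤ Real.log X := by linarith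
    rw [Real.norm_of_nonneg (pow_nonneg hY0 _)] at h2 h3
    simp only [id, Real.norm_of_nonneg hX0.le] at h2 h3
    refine ⟨hY, hX0, ?_, ?_⟩
    · have : Real.log X ^ 2 ≤ 1 / (36 * b ^ 5) * X :=
        h2.trans (mul_le_mul_of_nonneg_right (min_le_left _ _) hX0.le)
      calc 36 * b ^ 5 * Real.log X ^ 2 ≤ 36 * b ^ 5 * (1 / (36 * b ^ 5) * X) := by gcongr
        _ = X := by field_simp
    · have e2 : Real.log X ^ 2 ≤ κ / (4 * (|Real.log A| + 1)) * X :=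
        h2.trans (mul_le_mul_of_nonneg_right (min_le_right _ _) hX0.le)
      have ea : 0 ≤ |Real.log A| := abs_nonneg _
      have e3 : (2 / κ) * |Real.log A| * Real.log X ^ 2 ≤ X / 2 := by
        calc (2 / κ) * |Real.log A| * Real.log X ^ 2
            ≤ (2 / κ) * (|Real.log A| + 1) * (κ / (4 * (|Real.log A| + 1)) * X) := by
              gcongr; linarith
          _ = X / 2 := by field_simp; ring
      have e4 : (2 / κ) * Real.log X ^ 3 ≤ X / 2 := by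
        calc (2 / κ) * Real.log X ^ 3 ≤ (2 / κ) * (κ / 4 * X) := by gcongr
          _ = X / 2 := by field_simp; ring
      nlinarith
  have htend : Tendsto (fun N : ℕ => Real.log N) atTop atTop :=
    Real.tendsto_log_atTop.comp tendsto_natCast_atTop_atTop
  have hev2 := htend.eventually hev
  obtain ⟨N₀, hN₀⟩ := eventually_atTop.1 hev2
  refine ⟨max N₀ 1, fun N hN γ => ?_⟩
  obtain ⟨hY, hX0, hc1, hc2⟩ := hN₀ N ((le_max_left _ _).trans hN)
  have hN1 : 1 ≤ N := (le_max_right _ _).trans hN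
  set X := Real.log N with hX
  set Y := Real.log X with hYdef
  have hY0 : 0 < Y := by linarith
  set ρ : ℕ := ⌊X / (36 * b ^ 5 * Y ^ 2)⌋₊ with hρdef
  have hz : 1 ≤ X / (36 * b ^ 5 * Y ^ 2) := by
    rw [le_div_iff₀ (by positivity)]; linarith
  have hρ : 1 ≤ ρ := Nat.le_floor (by exact_mod_cast hz)
  have hρle : (ρ : ℝ) ≤ X / (36 * b ^ 5 * Y ^ 2) := Nat.floor_le (by positivity)
  have hρge : X / (36 * b ^ 5 * Y ^ 2) - 1 ≤ ρ := by
    have := Nat.lt_floor_add_one (X / (36 * b ^ 5 * Y ^ 2))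
    linarith
  have hρ1 : (1 : ℝ) ≤ ρ := by exact_mod_cast hρ
  have hρX : (ρ : ℝ) ≤ X := by
    refine hρle.trans (div_le_self hX0.le ?_)
    have h1 : (1 : ℝ) ≤ (b : ℝ) ^ 5 := one_le_pow₀ (by linarith)
    have h2 : (1 : ℝ) ≤ Y ^ 2 := one_le_pow₀ hY
    nlinarith
  have hℓ : 1 + Real.log ρ ≤ 2 * Y := by
    have : Real.log ρ ≤ Y := Real.log_le_log (by linarith) hρX
    linarith
  have hℓ0 : 0 ≤ 1 + Real.log ρ := by
    have := Real.log_nonneg hρ1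
    linarith
  obtain ⟨S, hS0, hS1, hS2⟩ := bounds b ρ hb hρ γ
  have hpos : 0 < ∑ d ∈ S, b ^ d := Finset.sum_pos (fun _ _ => by positivity) hS0
  refine ⟨S, hS0, ?_, hS2.trans ?_⟩
  · have h1 : Real.log ((∑ d ∈ S, b ^ d : ℕ) : ℝ) ≤ Real.log N := by
      refine hS1.trans ?_
      calc 9 * (b : ℝ) ^ 5 * (ρ * (1 + Real.log ρ) ^ 2)
          ≤ 9 * b ^ 5 * (X / (36 * b ^ 5 * Y ^ 2) * (2 * Y) ^ 2) := by gcongr
        _ = X := by field_simp; ring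
    have h2 := (Real.log_le_log_iff (by exact_mod_cast hpos) (by exact_mod_cast hN1)).1 h1
    exact_mod_cast h2
  · have hpow : (1 : ℝ) / (b : ℝ) ^ ρ ≤ b * Real.exp (-(κ * (X / Y ^ 2))) := by
      have hbe : (b : ℝ) ^ ρ = Real.exp (ρ * Real.log b) := by
        rw [mul_comm, Real.exp_mul, Real.exp_log (by linarith), Real.rpow_natCast]
      rw [hbe, one_div, ← Real.exp_neg]
      have : (b : ℝ) * Real.exp (-(κ * (X / Y ^ 2))) =
          Real.exp (Real.log b + -(κ * (X / Y ^ 2))) := by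
        rw [Real.exp_add, Real.exp_log (by linarith)]
      rw [this]
      apply Real.exp_le_exp.2
      have h5 : (X / (36 * b ^ 5 * Y ^ 2) - 1) * Real.log b ≤ ρ * Real.log b := by gcongr
      have h6 : (X / (36 * b ^ 5 * Y ^ 2) - 1) * Real.log b = κ * (X / Y ^ 2) - Real.log b := by
        rw [hκ]; field_simp
      linarith
    have hAY : A * Y ≤ Real.exp (κ / 2 * (X / Y ^ 2)) := by
      have h7 : A * Y = Real.exp (Real.log A + Real.log Y) := by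
        rw [Real.exp_add, Real.exp_log hApos, Real.exp_log hY0]
      rw [h7]
      apply Real.exp_le_exp.2
      have h8 : Real.log Y ≤ Y := by
        have := Real.log_le_sub_one_of_pos hY0
        linarith
      have h9 : Real.log A ≤ |Real.log A| := le_abs_self _
      have h10 : |Real.log A| + Y ≤ κ / 2 * (X / Y ^ 2) := by
        rw [← sub_nonneg]
        have : κ / 2 * (X / Y ^ 2) - (|Real.log A| + Y) =
            κ / 2 / Y ^ 2 * (X - 2 / κ * (|Real.log A| + Y) * Y ^ 2) := by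
          field_simp
        rw [this]
        apply mul_nonneg (by positivity)
        linarith
      linarith
    calc (2 * (b : ℝ) ^ 2 * (b + 3) + 2) * (1 + Real.log ρ) / (b : ℝ) ^ ρ
        = (2 * (b : ℝ) ^ 2 * (b + 3) + 2) * (1 + Real.log ρ) * (1 / (b : ℝ) ^ ρ) := by ring
      _ ≤ (2 * (b : ℝ) ^ 2 * (b + 3) + 2) * (2 * Y) * (b * Real.exp (-(κ * (X / Y ^ 2)))) := by
          gcongr
      _ = A * Y * Real.exp (-(κ * (X / Y ^ 2))) := by rw [hA]; ring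
      _ ≤ Real.exp (κ / 2 * (X / Y ^ 2)) * Real.exp (-(κ * (X / Y ^ 2))) := by gcongr
      _ = Real.exp (-(Real.log b / (72 * b ^ 5)) * (X / Y ^ 2)) := by
          rw [← Real.exp_add]
          congr 1
          rw [hκ]
          field_simp
          ring

end Pool.Agent.W44.PD
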