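import Mathlib

/-!
Growth of sums of finite sets whose `m`-fold sum is the whole group (Plünnecke).
-/

set_option autoImplicit false

open Finset
open scoped Pointwise Combinatorics.Additive

namespace Pool.Agent.W44.PD

variable {G : Type*} [AddCommGroup G] [Fintype G] [DecidableEq G]

/-- One step of growth. -/
theorem growth (m : ℕ) (hm : 1 ≤ m) (T S : Finset G) (hT : T.Nonempty)
    (hS : m • S = Finset.univ) :
    (Fintype.card G : ℝ) * (T.card : ℝ) ^ (m - 1) ≤ ((T + S).card : ℝ) ^ m := by
  have h := Finset.pluennecke_ruzsa_inequality_nsmul_add hT S m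
  rw [hS, Finset.card_univ] at h
  have h2 : (Fintype.card G : ℝ) ≤ (((T + S).card : ℝ) / T.card) ^ m * T.card := by
    have := (NNRat.cast_le (K := ℝ)).2 h
    push_cast at this
    exact this
  have hTc : (0 : ℝ) < T.card := by exact_mod_cast hT.card_pos
  obtain ⟨k, rfl⟩ : ∃ k, m = k + 1 := ⟨m - 1, by omega⟩
  simp only [Nat.add_sub_cancel]
  calc (Fintype.card G : ℝ) * (T.card : ℝ) ^ k
      ≤ ((((T + S).card : ℝ) / T.card) ^ (k + 1) * T.card) * (T.card : ℝ) ^ k := by gcongr
    _ = ((T + S).card : ℝ) ^ (k + 1) := by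
        rw [div_pow, mul_assoc, ← pow_succ']
        field_simp

/-- The deficit `log (|G| / |T|)`. -/
noncomputable def deficit (T : Finset G) : ℝ :=
  Real.log (Fintype.card G) - Real.log T.card

theorem deficit_add (m : ℕ) (hm : 1 ≤ m) (T S : Finset G) (hT : T.Nonempty) (hS0 : S.Nonempty)
    (hS : m • S = Finset.univ) :
    deficit (T + S) ≤ (1 - 1 / (m : ℝ)) * deficit T := by
  have h := growth m hm T S hT hS
  have hGc : (0 : ℝ) < Fintype.card G := by
    have : Nonempty G := ⟨0⟩
    exact_mod_cast Fintype.card_pos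
  have hTc : (0 : ℝ) < T.card := by exact_mod_cast hT.card_pos
  have hTSc : (0 : ℝ) < (T + S).card := by exact_mod_cast (hT.add hS0).card_pos
  have h3 := Real.log_le_log (by positivity) h
  rw [Real.log_mul hGc.ne' (by positivity), Real.log_pow, Real.log_pow] at h3
  have hm' : (0 : ℝ) < m := by exact_mod_cast hm
  have hc : ((m - 1 : ℕ) : ℝ) = (m : ℝ) - 1 := by
    rw [Nat.cast_sub hm]; simp
  rw [hc] at h3
  unfold deficit
  have : (m : ℝ) * (Real.log (Fintype.card G) - Real.log (T + S).card) ≤
      m * ((1 - 1 / (m : ℝ)) * (Real.log (Fintype.card G) - Real.log T.card)) := by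
    have e : (m : ℝ) * ((1 - 1 / (m : ℝ)) * (Real.log (Fintype.card G) - Real.log T.card)) =
        (m - 1) * (Real.log (Fintype.card G) - Real.log T.card) := by
      field_simp
    rw [e]
    linarith
  exact le_of_mul_le_mul_left this hm'

theorem deficit_sum (m : ℕ) (hm : 1 ≤ m) (S : ℕ → Finset G) (hS0 : ∀ j, (S j).Nonempty)
    (hS : ∀ j, m • S j = Finset.univ) (K : ℕ) :
    (∑ j ∈ range K, S j).Nonempty ∧
    deficit (∑ j ∈ range K, S j) ≤ (1 - 1 / (m : ℝ)) ^ K * Real.log (Fintype.card G) := by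
  have h1 : (0 : ℝ) ≤ 1 - 1 / (m : ℝ) := by
    have hm' : (1 : ℝ) ≤ m := by exact_mod_cast hm
    have : 1 / (m : ℝ) ≤ 1 := by rw [div_le_one (by linarith)]; exact hm'
    linarith
  induction K with
  | zero => 
    refine ⟨by simp, ?_⟩
    simp [deficit]
  | succ K ih =>
    rw [Finset.sum_range_succ]
    refine ⟨ih.1.add (hS0 K), ?_⟩
    refine (deficit_add m hm _ _ ih.1 (hS0 K) (hS K)).trans ?_
    rw [pow_succ']
    calc _ ≤ (1 - 1 / (m : ℝ)) * ((1 - 1 / (m : ℝ)) ^ K * Real.log (Fintype.card G)) :=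
          mul_le_mul_of_nonneg_left ih.2 h1
      _ = _ := by ring

theorem add_eq_univ_of_card (S T : Finset G) (h : Fintype.card G < S.card + T.card) (g : G) :
    g ∈ S + T := by
  have hT : (T.image (fun t => g - t)).card = T.card :=
    Finset.card_image_of_injective _ (fun a b hab => by simpa using hab)
  have hne : (S ∩ T.image (fun t => g - t)).Nonempty := by
    by_contra hcon
    rw [Finset.not_nonempty_iff_eq_empty] at hcon
    have hd : Disjoint S (T.image (fun t => g - t)) := Finset.disjoint_iff_inter_eq_empty.2 hcon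
    have := Finset.card_union_of_disjoint hd
    have h2 : (S ∪ T.image (fun t => g - t)).card ≤ Fintype.card G := Finset.card_le_univ _
    omega
  obtain ⟨x, hx⟩ := hne
  rw [Finset.mem_inter, Finset.mem_image] at hx
  obtain ⟨hxS, t, ht, rfl⟩ := hx
  exact Finset.mem_add.2 ⟨g - t, hxS, t, ht, by abel⟩

/-- The sum of `2 K` sets is everything. -/
theorem sum_eq_univ (m : ℕ) (hm : 1 ≤ m) (S : ℕ → Finset G) (hS0 : ∀ j, (S j).Nonempty)
    (hS : ∀ j, m • S j = Finset.univ) (K : ℕ)
    (hK : (1 - 1 / (m : ℝ)) ^ K * Real.log (Fintype.card G) < Real.log 2) (g : G) :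
    g ∈ ∑ j ∈ range (2 * K), S j := by
  have hGc : (0 : ℝ) < Fintype.card G := by
    have : Nonempty G := ⟨0⟩
    exact_mod_cast Fintype.card_pos
  have key : ∀ T : Finset G, T.Nonempty → deficit T < Real.log 2 →
      (Fintype.card G : ℝ) < 2 * T.card := by
    intro T hT hd
    have hTc : (0 : ℝ) < T.card := by exact_mod_cast hT.card_pos
    unfold deficit at hd
    have : Real.log (Fintype.card G) < Real.log (2 * T.card) := by
      rw [Real.log_mul (by norm_num) hTc.ne']; linarith
    exact (Real.log_lt_log_iff hGc (by positivity)).1 this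
  have h1 := deficit_sum m hm S hS0 hS K
  have h2 := deficit_sum m hm (fun j => S (K + j)) (fun j => hS0 _) (fun j => hS _) K
  have c1 := key _ h1.1 (h1.2.trans_lt hK)
  have c2 := key _ h2.1 (h2.2.trans_lt hK)
  rw [two_mul, Finset.sum_range_add]
  apply add_eq_univ_of_card
  have : (Fintype.card G : ℝ) < (∑ j ∈ range K, S j).card + (∑ j ∈ range K, S (K + j)).card := by
    linarith
  exact_mod_cast this

end Pool.Agent.W44.PD
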