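import Pool.Agent.W44.PD.RealCase

/-!
Main theorem: combination of the two cases and choice of the parameters.
-/

set_option autoImplicit false

open Finset

namespace Pool.Agent.W44.PD

theorem log_two_le (b ρ q : ℕ) (hq : q ≤ b ^ ρ) : Nat.log 2 q ≤ b * ρ := by
  have h1 : q ≤ 2 ^ (b * ρ) := by
    refine hq.trans ?_
    rw [pow_mul]
    exact Nat.pow_le_pow_left Nat.lt_two_pow_self.le _
  calc Nat.log 2 q ≤ Nat.log 2 (2 ^ (b * ρ)) := Nat.log_mono_right h1
    _ = b * ρ := Nat.log_pow (by norm_num) _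

theorem core (b ρ K R : ℕ) (hb : 2 ≤ b) (hρ : 1 ≤ ρ) (γ : ℝ)
    (hK : (1 - 1 / ((b - 1 : ℕ) : ℝ)) ^ K * (ρ * Real.log b) < Real.log 2)
    (hR : R = 2 * K * ρ + 1 + b * ρ + ρ) :
    ∃ S : Finset ℕ, S.Nonempty ∧ S ⊆ range (2 * K * R + 1) ∧
      |γ * ((∑ d ∈ S, b ^ d : ℕ) : ℝ) - round (γ * ((∑ d ∈ S, b ^ d : ℕ) : ℝ))| ≤
        (2 * K * (b + 3) + 2) / (b : ℝ) ^ ρ := by
  have hbR : 1 < b ^ R := Nat.one_lt_pow (by omega) (by omega)
  have hbpos : (0 : ℝ) < b := by exact_mod_cast (by omega : 0 < b)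
  have hdir : ∀ j : ℕ, ∃ r : ℚ, |(b : ℝ) ^ (j * R) * γ - r| ≤ 1 / ((b ^ R : ℕ) * r.den) ∧
      r.den < b ^ R := by
    intro j
    obtain ⟨r, h1, h2⟩ := Real.exists_rat_abs_sub_le_and_den_le ((b : ℝ) ^ (j * R) * γ)
      (show 0 < b ^ R - 1 by omega)
    refine ⟨r, ?_, by omega⟩
    have e : (((b ^ R - 1 : ℕ) : ℝ) + 1) = ((b ^ R : ℕ) : ℝ) := by
      rw [Nat.cast_sub hbR.le]; simp
    rw [e] at h1
    exact h1
  choose r hr1 hr2 using hdir
  by_cases hall : ∀ j, j < 2 * K → b ^ ρ < (r j).den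
  · exact dense_case b ρ K R hb γ hK (fun j => ⟨r j, fun hj => ⟨hr1 j, hr2 j, hall j hj⟩⟩)
  · push Not at hall
    obtain ⟨j, hj, hden⟩ := hall
    set q := (r j).den with hq
    have hqpos : 1 ≤ q := (r j).den_pos
    obtain ⟨S, hS0, hS1, hS2⟩ := rational b ρ K hb hK q hqpos hden
    refine ⟨S.map (addRightEmbedding (j * R)), hS0.map, ?_, ?_⟩
    · intro x hx
      obtain ⟨y, hy, rfl⟩ := Finset.mem_map.1 hx
      have hy2 := Finset.mem_range.1 (hS1 hy)
      have hlog := log_two_le b ρ q hden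
      rw [Finset.mem_range]
      simp only [addRightEmbedding_apply]
      have : j * R + R ≤ 2 * K * R := by nlinarith
      omega
    · have hsum : ∑ d ∈ S.map (addRightEmbedding (j * R)), b ^ d = b ^ (j * R) * ∑ d ∈ S, b ^ d := by
        rw [Finset.sum_map, Finset.mul_sum]
        apply Finset.sum_congr rfl
        intro e _
        simp only [addRightEmbedding_apply]
        rw [pow_add, mul_comm]
      rw [hsum]
      set n : ℕ := ∑ d ∈ S, b ^ d with hn
      have hnlt : n < b ^ (2 * K * ρ + 1 + b * ρ) := by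
        refine Nat.geomSum_lt hb ?_
        intro k hk
        have := Finset.mem_range.1 (hS1 hk)
        have hlog := log_two_le b ρ q hden
        omega
      obtain ⟨l, hl⟩ := hS2
      have hqR : (0 : ℝ) < q := by exact_mod_cast hqpos
      have hrR : ((r j : ℚ) : ℝ) = (r j).num / q := by
        rw [hq]; exact_mod_cast (Rat.num_div_den (r j)).symm
      refine (round_le _ ((r j).num * l)).trans ?_
      have e1 : γ * ((b ^ (j * R) * n : ℕ) : ℝ) - (((r j).num * l : ℤ) : ℝ) =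
          n * ((b : ℝ) ^ (j * R) * γ - r j) := by
        rw [hrR]
        have : (n : ℝ) = q * l := by exact_mod_cast hl
        push_cast
        rw [this]
        field_simp
      rw [e1, abs_mul, abs_of_nonneg (Nat.cast_nonneg n)]
      calc (n : ℝ) * |(b : ℝ) ^ (j * R) * γ - r j| ≤ n * (1 / ((b ^ R : ℕ) * q)) := by
            gcongr; exact hr1 j
        _ ≤ (b : ℝ) ^ (2 * K * ρ + 1 + b * ρ) * (1 / ((b : ℝ) ^ R * 1)) := by
            have h1 : (n : ℝ) ≤ (b : ℝ) ^ (2 * K * ρ + 1 + b * ρ) := by exact_mod_cast hnlt.le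
            have h2 : (1 : ℝ) ≤ q := by exact_mod_cast hqpos
            push_cast
            gcongr
        _ = 1 / (b : ℝ) ^ ρ := by
            rw [hR, pow_add (b : ℝ) (2 * K * ρ + 1 + b * ρ) ρ]
            field_simp
        _ ≤ (2 * K * (b + 3) + 2) / (b : ℝ) ^ ρ := by
            gcongr
            have : (0 : ℝ) ≤ 2 * K * (b + 3) := by positivity
            linarith

end Pool.Agent.W44.PD
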