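import Pool.Agent.W44.PD.Digits

/-!
Real multipliers.
-/

set_option autoImplicit false

open Finset
open scoped Pointwise

namespace Pool.Agent.W44.PD

theorem floor_sum (n : ℕ) (f : ℕ → ℝ) :
    ∃ u : ℕ, u ≤ n ∧ ⌊∑ i ∈ range n, f i⌋ = ∑ i ∈ range n, ⌊f i⌋ + (u : ℤ) := by
  induction n with
  | zero => exact ⟨0, le_rfl, by simp⟩
  | succ n ih =>
    obtain ⟨u, hu, h⟩ := ih
    rw [Finset.sum_range_succ, Finset.sum_range_succ]
    have h1 := Int.le_floor_add (∑ i ∈ range n, f i) (f n)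
    have h2 := Int.le_floor_add_floor (∑ i ∈ range n, f i) (f n)
    by_cases hc : ⌊∑ i ∈ range n, f i + f n⌋ = ⌊∑ i ∈ range n, f i⌋ + ⌊f n⌋
    · exact ⟨u, by omega, by rw [hc, h]; ring⟩
    · refine ⟨u + 1, by omega, ?_⟩
      push_cast
      omega

/-- The map to `ZMod M`. -/
noncomputable def phi (M : ℕ) (x : ℝ) : ZMod M := ((⌊(M : ℝ) * x⌋ : ℤ) : ZMod M)

theorem dense (M B : ℕ) (hM : 1 ≤ M) (x : ℝ) (r : ℚ)
    (h1 : |x - r| ≤ 1 / (B * r.den)) (h2 : r.den < B) (h3 : M < r.den) (g : ZMod M) :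
    ∃ N t : ℕ, N < B ∧ t ≤ 4 ∧ phi M (N * x) + t = g := by
  have hM0 : NeZero M := ⟨by omega⟩
  have hq0 : NeZero r.den := ⟨r.den_pos.ne'⟩
  set q := r.den with hq
  set k := g.val with hk
  set z : ℤ := ⌊(((k : ℝ) - 2) / M) * q⌋ with hz
  have hcop : IsUnit ((r.num : ℤ) : ZMod q) := by
    rw [ZMod.coe_int_isUnit_iff_isCoprime]
    rw [Int.isCoprime_iff_gcd_eq_one, Int.gcd_comm]
    exact r.reduced
  obtain ⟨v, hv⟩ := hcop
  set N : ℕ := ((z : ZMod q) * ↑v⁻¹).val with hN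
  have hNq : N < q := ZMod.val_lt _
  have hmod : (((N : ℤ) * r.num - z : ℤ) : ZMod q) = 0 := by
    push_cast
    rw [hN, ZMod.natCast_zmod_val, ← hv, mul_assoc]
    simp
  rw [ZMod.intCast_zmod_eq_zero_iff_dvd] at hmod
  obtain ⟨w, hw⟩ := hmod
  have hqR : (0 : ℝ) < q := by exact_mod_cast r.den_pos
  have hMR : (0 : ℝ) < M := by exact_mod_cast hM
  have hBR : (q : ℝ) < B := by exact_mod_cast h2
  have hMq : (M : ℝ) < q := by exact_mod_cast h3
  have hNR : (N : ℝ) < q := by exact_mod_cast hNq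
  have hN0 : (0 : ℝ) ≤ N := Nat.cast_nonneg _
  have hr : (r : ℝ) = r.num / q := by
    rw [hq]; exact_mod_cast (Rat.num_div_den r).symm
  have hNr : (N : ℝ) * r = z / q + w := by
    have : ((N : ℝ) * r.num - z) = q * w := by exact_mod_cast hw
    rw [hr]
    field_simp
    linarith
  have hzl : (z : ℝ) ≤ (((k : ℝ) - 2) / M) * q := Int.floor_le _
  have hzu : (((k : ℝ) - 2) / M) * q < z + 1 := Int.lt_floor_add_one _
  have hB0 : (0 : ℝ) < B := hqR.trans hBR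
  have herr : |(N : ℝ) * x - N * r| < 1 / B := by
    rw [← mul_sub, abs_mul, abs_of_nonneg hN0]
    rcases hN0.eq_or_lt with h0 | h0
    · rw [← h0, zero_mul]; positivity
    calc (N : ℝ) * |x - r| ≤ N * (1 / (B * q)) := by gcongr
      _ < q * (1 / (B * q)) := by gcongr
      _ = 1 / B := by field_simp
  rw [abs_lt] at herr
  have hMB : (M : ℝ) * (1 / B) < 1 := by
    rw [mul_one_div, div_lt_one hB0]; linarith
  -- bounds for M * N * x
  have hup : (M : ℝ) * (N * x) < M * w + (k - 2) + 1 := by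
    have a1 : (M : ℝ) * (N * x) < M * (z / q + w + 1 / B) := by
      apply mul_lt_mul_of_pos_left _ hMR
      linarith [herr.2, hNr]
    have a2 : (M : ℝ) * (z / q) ≤ k - 2 := by
      have : (z : ℝ) / q ≤ ((k : ℝ) - 2) / M := by rw [div_le_iff₀ hqR]; exact hzl
      calc (M : ℝ) * (z / q) ≤ M * (((k : ℝ) - 2) / M) := by gcongr
        _ = k - 2 := by field_simp
    nlinarith
  have hlo : (M : ℝ) * w + (k - 2) - 2 < M * (N * x) := by
    have a1 : (M : ℝ) * (z / q + w - 1 / B) < M * (N * x) := by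
      apply mul_lt_mul_of_pos_left _ hMR
      linarith [herr.1, hNr]
    have a2 : (k : ℝ) - 2 - 1 < M * (z / q) := by
      have b1 : ((k : ℝ) - 2) / M - 1 / q < z / q := by
        rw [lt_div_iff₀ hqR, sub_mul]
        have : (1 : ℝ) / q * q = 1 := by field_simp
        linarith
      have b2 : (M : ℝ) * (1 / q) < 1 := by rw [mul_one_div, div_lt_one hqR]; exact hMq
      calc (k : ℝ) - 2 - 1 < M * (((k : ℝ) - 2) / M - 1 / q) := by
            rw [mul_sub]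
            have : (M : ℝ) * (((k : ℝ) - 2) / M) = k - 2 := by field_simp
            linarith
        _ < M * (z / q) := by gcongr
    nlinarith
  set F : ℤ := ⌊(M : ℝ) * (N * x)⌋ with hF
  have hF1 : (F : ℝ) ≤ M * (N * x) := Int.floor_le _
  have hF2 : (M : ℝ) * (N * x) < F + 1 := Int.lt_floor_add_one _
  have hF3 : F < M * w + (k - 2) + 1 := by
    have : (F : ℝ) < M * w + (k - 2) + 1 := by linarith
    exact_mod_cast this
  have hF4 : (M : ℤ) * w + (k - 2) - 3 < F := by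
    have : (M : ℝ) * w + (k - 2) - 3 < F := by linarith
    exact_mod_cast this
  obtain ⟨t, ht⟩ : ∃ t : ℕ, (t : ℤ) = M * w + k - F := by
    refine ⟨(M * w + k - F).toNat, ?_⟩
    rw [Int.toNat_of_nonneg]
    omega
  refine ⟨N, t, by omega, by omega, ?_⟩
  unfold phi
  rw [← hF]
  have hFe : F = M * w + k - t := by omega
  rw [hFe]
  push_cast
  rw [hk, ZMod.natCast_zmod_val]
  simp

theorem dense_case (b ρ K R : ℕ) (hb : 2 ≤ b) (γ : ℝ)
    (hK : (1 - 1 / ((b - 1 : ℕ) : ℝ)) ^ K * (ρ * Real.log b) < Real.log 2)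
    (hr : ∀ j : ℕ, ∃ r : ℚ, j < 2 * K → |(b : ℝ) ^ (j * R) * γ - r| ≤ 1 / ((b ^ R : ℕ) * r.den) ∧
      r.den < b ^ R ∧ b ^ ρ < r.den) :
    ∃ S : Finset ℕ, S.Nonempty ∧ S ⊆ range (2 * K * R + 1) ∧
      |γ * ((∑ d ∈ S, b ^ d : ℕ) : ℝ) - round (γ * ((∑ d ∈ S, b ^ d : ℕ) : ℝ))| ≤
        (2 * K * (b + 3) + 2) / (b : ℝ) ^ ρ := by
  set M : ℕ := b ^ ρ with hM
  have hM1 : 1 ≤ M := Nat.one_le_pow _ _ (by omega)
  have hM0 : NeZero M := ⟨by omega⟩
  choose r hr using hr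
  let S : ℕ → Finset (ZMod M) := fun j => if j < 2 * K then
    ((range R).powerset ×ˢ range (b + 4)).image
      (fun Pe => phi M (((b ^ (j * R) * ∑ d ∈ Pe.1, b ^ d : ℕ) : ℝ) * γ) + (Pe.2 : ZMod M))
    else Finset.univ
  have hS0 : ∀ j, (S j).Nonempty := by
    intro j
    by_cases hj : j < 2 * K
    · simp only [S, hj, if_true]
      exact Finset.Nonempty.image ⟨(∅, 0), by simp⟩ _
    · simp only [S, hj, if_false]
      exact ⟨0, Finset.mem_univ _⟩
  have hm : 1 ≤ b - 1 := by omega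
  have hS : ∀ j, (b - 1) • S j = Finset.univ := by
    intro j
    rw [Finset.eq_univ_iff_forall]
    intro g
    by_cases hj : j < 2 * K
    · obtain ⟨h1, h2, h3⟩ := hr j hj
      obtain ⟨N, t, hN, ht, hNt⟩ := dense M (b ^ R) hM1 _ (r j) h1 h2 h3 g
      obtain ⟨f, hf, hfs⟩ := digits_decomp b R N hb hN
      obtain ⟨u, hu, hfl⟩ := floor_sum (b - 1)
        (fun i => (M : ℝ) * (((b ^ (j * R) * ∑ d ∈ f i, b ^ d : ℕ) : ℝ) * γ))
      have hsum : ∑ i ∈ range (b - 1), (M : ℝ) * (((b ^ (j * R) * ∑ d ∈ f i, b ^ d : ℕ) : ℝ) * γ) =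
          (M : ℝ) * (N * ((b : ℝ) ^ (j * R) * γ)) := by
        rw [← Finset.mul_sum, ← Finset.sum_mul, ← Nat.cast_sum, ← Finset.mul_sum, hfs]
        push_cast
        ring
      rw [hsum] at hfl
      have hg : g = ∑ i ∈ range (b - 1),
          (phi M (((b ^ (j * R) * ∑ d ∈ f i, b ^ d : ℕ) : ℝ) * γ) +
            (((if i = 0 then t + u else 0 : ℕ) : ZMod M))) := by
        rw [Finset.sum_add_distrib, ← hNt]
        unfold phi
        rw [hfl]
        push_cast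
        have : ∑ x ∈ range (b - 1), (if x = 0 then ((t : ZMod M) + u) else 0) = t + u := by
          rw [Finset.sum_ite_eq']
          simp only [Finset.mem_range]
          rw [if_pos (by omega)]
        rw [this]
        ring
      rw [hg]
      apply sum_mem_nsmul
      intro i _
      simp only [S, hj, if_true]
      refine Finset.mem_image.2 ⟨(f i, if i = 0 then t + u else 0), ?_, rfl⟩
      rw [Finset.mem_product, Finset.mem_powerset, Finset.mem_range]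
      refine ⟨hf i, ?_⟩
      show (if i = 0 then t + u else 0) < b + 4
      split_ifs <;> omega
    · simp only [S, hj, if_false]
      have h1 := sum_mem_nsmul (Finset.univ : Finset (ZMod M)) (b - 1)
        (fun i => if i = 0 then g else 0) (fun _ _ => Finset.mem_univ _)
      rw [Finset.sum_ite_eq'] at h1
      rwa [if_pos (Finset.mem_range.2 (by omega))] at h1
  have hK' : (1 - 1 / ((b - 1 : ℕ) : ℝ)) ^ K * Real.log (Fintype.card (ZMod M)) < Real.log 2 := by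
    rw [ZMod.card, hM]
    push_cast
    rw [Real.log_pow]
    exact hK
  have hmem := sum_eq_univ (b - 1) hm S hS0 hS K hK' (-(phi M (((b ^ (2 * K * R) : ℕ) : ℝ) * γ)))
  obtain ⟨f, hf, hfs⟩ := mem_sum_range _ _ _ hmem
  have hex : ∀ j, ∃ P : Finset ℕ, ∃ e : ℕ, j < 2 * K → P ⊆ range R ∧ e < b + 4 ∧
      phi M (((b ^ (j * R) * ∑ d ∈ P, b ^ d : ℕ) : ℝ) * γ) + (e : ZMod M) = f j := by
    intro j
    by_cases hj : j < 2 * K
    · have h1 := hf j hj
      simp only [S, hj, if_true] at h1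
      obtain ⟨⟨P, e⟩, hPe, hPe2⟩ := Finset.mem_image.1 h1
      rw [Finset.mem_product, Finset.mem_powerset, Finset.mem_range] at hPe
      exact ⟨P, e, fun _ => ⟨hPe.1, hPe.2, hPe2⟩⟩
    · exact ⟨∅, 0, fun h => absurd h hj⟩
  choose P e hP using hex
  obtain ⟨U, hU0, hU, hUs⟩ := assemble b (2 * K) R P (fun j hj => (hP j hj).1)
  refine ⟨U, hU0, hU, ?_⟩
  set n : ℕ := ∑ d ∈ U, b ^ d with hn
  -- floor computation
  obtain ⟨u, hu, hfl⟩ := floor_sum (2 * K + 1)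
    (fun i => if i < 2 * K then (M : ℝ) * (((b ^ (i * R) * ∑ d ∈ P i, b ^ d : ℕ) : ℝ) * γ)
      else (M : ℝ) * (((b ^ (2 * K * R) : ℕ) : ℝ) * γ))
  have hs1 : ∑ i ∈ range (2 * K + 1), (if i < 2 * K then
      (M : ℝ) * (((b ^ (i * R) * ∑ d ∈ P i, b ^ d : ℕ) : ℝ) * γ)
      else (M : ℝ) * (((b ^ (2 * K * R) : ℕ) : ℝ) * γ)) = (M : ℝ) * (n * γ) := by
    rw [Finset.sum_range_succ, if_neg (lt_irrefl _)]
    rw [Finset.sum_congr rfl (fun i hi => if_pos (Finset.mem_range.1 hi))]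
    rw [← Finset.mul_sum, ← Finset.sum_mul, ← Nat.cast_sum, hUs]
    push_cast
    ring
  rw [hs1, Finset.sum_range_succ, if_neg (lt_irrefl _)] at hfl
  have hs2 : ∑ x ∈ range (2 * K), ⌊if x < 2 * K then
      (M : ℝ) * (((b ^ (x * R) * ∑ d ∈ P x, b ^ d : ℕ) : ℝ) * γ)
      else (M : ℝ) * (((b ^ (2 * K * R) : ℕ) : ℝ) * γ)⌋ =
      ∑ x ∈ range (2 * K), ⌊(M : ℝ) * (((b ^ (x * R) * ∑ d ∈ P x, b ^ d : ℕ) : ℝ) * γ)⌋ :=
    Finset.sum_congr rfl (fun i hi => by rw [if_pos (Finset.mem_range.1 hi)])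
  rw [hs2] at hfl
  have hzm : ((⌊(M : ℝ) * (n * γ)⌋ - u + ∑ x ∈ range (2 * K), (e x : ℤ) : ℤ) : ZMod M) = 0 := by
    rw [hfl]
    have hfs2 : ∑ j ∈ range (2 * K),
        (phi M (((b ^ (j * R) * ∑ d ∈ P j, b ^ d : ℕ) : ℝ) * γ) + (e j : ZMod M)) =
        -(phi M (((b ^ (2 * K * R) : ℕ) : ℝ) * γ)) := by
      rw [← hfs]
      exact Finset.sum_congr rfl (fun j hj => (hP j (Finset.mem_range.1 hj)).2.2)
    rw [Finset.sum_add_distrib] at hfs2
    unfold phi at hfs2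
    push_cast at hfs2 ⊢
    linear_combination hfs2
  rw [ZMod.intCast_zmod_eq_zero_iff_dvd] at hzm
  obtain ⟨w, hw⟩ := hzm
  have hE : ∑ x ∈ range (2 * K), (e x : ℤ) ≤ 2 * K * (b + 3) := by
    have : ∑ x ∈ range (2 * K), (e x : ℤ) ≤ ∑ x ∈ range (2 * K), ((b : ℤ) + 3) := by
      apply Finset.sum_le_sum
      intro x hx
      have := (hP x (Finset.mem_range.1 hx)).2.1
      omega
    refine this.trans ?_
    rw [Finset.sum_const, Finset.card_range]
    simp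
  have hE0 : 0 ≤ ∑ x ∈ range (2 * K), (e x : ℤ) := Finset.sum_nonneg (fun _ _ => by positivity)
  set E : ℤ := ∑ x ∈ range (2 * K), (e x : ℤ) with hEdef
  have hMR : (0 : ℝ) < M := by exact_mod_cast hM1
  have hround := round_le (γ * (n : ℝ)) w
  refine hround.trans ?_
  have hMb : (M : ℝ) = (b : ℝ) ^ ρ := by rw [hM]; push_cast; rfl
  rw [← hMb, le_div_iff₀ hMR]
  set F : ℤ := ⌊(M : ℝ) * (n * γ)⌋ with hF
  have hF1 : (F : ℝ) ≤ M * (n * γ) := Int.floor_le _
  have hF2 : (M : ℝ) * (n * γ) < F + 1 := Int.lt_floor_add_one _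
  have hwR : (F : ℝ) - u + E = M * w := by exact_mod_cast hw
  have hER : (E : ℝ) ≤ 2 * K * (b + 3) := by exact_mod_cast hE
  have hE0R : (0 : ℝ) ≤ E := by exact_mod_cast hE0
  have huR : (u : ℝ) ≤ 2 * K + 1 := by exact_mod_cast hu
  have hu0 : (0 : ℝ) ≤ u := Nat.cast_nonneg _
  have hK0 : (0 : ℝ) ≤ K := Nat.cast_nonneg _
  have hb0 : (0 : ℝ) ≤ b := Nat.cast_nonneg _
  have hbb : (0 : ℝ) ≤ 2 * K * b := by positivity
  have hab : |γ * (n : ℝ) - w| * (M : ℝ) = |(γ * (n : ℝ) - w) * M| := by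
    rw [abs_mul, abs_of_pos hMR]
  rw [hab, abs_le]
  constructor
  · nlinarith
  · nlinarith

end Pool.Agent.W44.PD
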